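import Pool.Agent.Q139.Bin.Til

/-! The boundaries of the tiles of the binary tilings. -/

open Topology Set

namespace Pool.Agent.Q139.Bin

noncomputable def uu (s : ℝ) : ℝ := max 0 (max (min 1 ((3 - s) / 2)) (s - 4))
noncomputable def vv (s : ℝ) : ℝ := max 0 (min 1 (min s (4 - s)))

noncomputable def gam (x0 x1 e : ℝ) (s : ℝ) : E2 := !₂[x1 + (x0 - x1) * uu s, e + vv s]

@[simp] theorem gam_zero (x0 x1 e s : ℝ) : gam x0 x1 e s 0 = x1 + (x0 - x1) * uu s := rfl
@[simp] theorem gam_one (x0 x1 e s : ℝ) : gam x0 x1 e s 1 = e + vv s := rfl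

theorem uv_cases (s : ℝ) (h0 : 0 ≤ s) (h5 : s ≤ 5) :
    (s ≤ 1 ∧ uu s = 1 ∧ vv s = s) ∨ (1 ≤ s ∧ s ≤ 3 ∧ uu s = (3 - s) / 2 ∧ vv s = 1) ∨
      (3 ≤ s ∧ s ≤ 4 ∧ uu s = 0 ∧ vv s = 4 - s) ∨ (4 ≤ s ∧ uu s = s - 4 ∧ vv s = 0) := by
  unfold uu vv
  rcases le_total s 1 with h | h
  · left
    refine ⟨h, ?_, ?_⟩
    · rw [min_eq_left (by linarith : (1 : ℝ) ≤ (3 - s) / 2), max_eq_left (by linarith : s - 4 ≤ 1),
        max_eq_right (by norm_num : (0 : ℝ) ≤ 1)]
    · rw [min_eq_left (by linarith : s ≤ 4 - s), min_eq_right h, max_eq_right h0]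
  · right
    rcases le_total s 3 with h' | h'
    · left
      refine ⟨h, h', ?_, ?_⟩
      · rw [min_eq_right (by linarith : (3 - s) / 2 ≤ 1),
          max_eq_left (by linarith : s - 4 ≤ (3 - s) / 2),
          max_eq_right (by linarith : (0 : ℝ) ≤ (3 - s) / 2)]
      · rw [min_eq_left (le_min h (by linarith : (1 : ℝ) ≤ 4 - s)),
          max_eq_right (by norm_num : (0 : ℝ) ≤ 1)]
    · right
      rcases le_total s 4 with h'' | h''
      · left
        refine ⟨h', h'', ?_, ?_⟩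
        · rw [max_eq_left]
          apply max_le
          · exact le_trans (min_le_right _ _) (by linarith)
          · linarith
        · rw [min_eq_right (by linarith : 4 - s ≤ s), min_eq_right (by linarith : 4 - s ≤ 1),
            max_eq_right (by linarith : 0 ≤ 4 - s)]
      · right
        refine ⟨h'', ?_, ?_⟩
        · rw [max_eq_right (le_max_of_le_right (by linarith : 0 ≤ s - 4)), max_eq_right]
          exact le_trans (min_le_right _ _) (by linarith)
        · rw [max_eq_left]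
          exact le_trans (min_le_right _ _) (le_trans (min_le_right _ _) (by linarith))

theorem continuous_gam (x0 x1 e : ℝ) : Continuous (gam x0 x1 e) := by
  unfold gam uu vv
  apply (PiLp.continuous_toLp 2 _).comp
  apply continuous_pi
  intro i
  fin_cases i
  · show Continuous fun s : ℝ => x1 + (x0 - x1) * max 0 (max (min 1 ((3 - s) / 2)) (s - 4))
    fun_prop
  · show Continuous fun s : ℝ => e + max 0 (min 1 (min s (4 - s)))
    fun_prop

theorem injOn_gam (x0 x1 e : ℝ) (h : x0 ≠ x1) : InjOn (gam x0 x1 e) (Ico 0 5) := by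
  intro s hs t ht hst
  have h0 : uu s = uu t := by
    have := congrArg (fun p : E2 => p 0) hst
    simp only [gam_zero] at this
    have h1 : x0 - x1 ≠ 0 := sub_ne_zero.2 h
    exact mul_left_cancel₀ h1 (by linarith)
  have h1 : vv s = vv t := by
    have := congrArg (fun p : E2 => p 1) hst
    simp only [gam_one] at this
    linarith
  obtain ⟨hs0, hs5⟩ := hs
  obtain ⟨ht0, ht5⟩ := ht
  rcases uv_cases s hs0 hs5.le with ⟨a1, a2, a3⟩ | ⟨a0, a1, a2, a3⟩ | ⟨a0, a1, a2, a3⟩ | ⟨a1, a2, a3⟩ <;>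
  rcases uv_cases t ht0 ht5.le with ⟨b1, b2, b3⟩ | ⟨b0, b1, b2, b3⟩ | ⟨b0, b1, b2, b3⟩ | ⟨b1, b2, b3⟩ <;>
  linarith

theorem frontier_tile (d : ℕ → Bool) (k i : ℤ) (p : E2) : p ∈ frontier (tile d k i) ↔
    p ∈ tile d k i ∧ (p 0 = X d k i ∨ p 0 = X d k (i + 1) ∨ p 1 = k ∨ p 1 = (k : ℝ) + 1) := by
  rw [(closed_tile d k i).frontier_eq, interior_tile]
  simp only [mem_sdiff, mem_ofPred_eq, mem_tile]
  constructor
  · rintro ⟨⟨h1, h2, h3, h4⟩, h5⟩
    refine ⟨⟨h1, h2, h3, h4⟩, ?_⟩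
    by_contra hc
    push Not at hc
    obtain ⟨c1, c2, c3, c4⟩ := hc
    exact h5 ⟨lt_of_le_of_ne h1 (Ne.symm c1), lt_of_le_of_ne h2 c2,
      lt_of_le_of_ne h3 (Ne.symm c3), lt_of_le_of_ne h4 c4⟩
  · rintro ⟨h1, h5⟩
    refine ⟨h1, fun h6 => ?_⟩
    obtain ⟨c1, c2, c3, c4⟩ := h6
    rcases h5 with h | h | h | h <;> linarith

theorem image_gam (d : ℕ → Bool) (k i : ℤ) (x0 x1 : ℝ)
    (h : (x0 = X d k (i + 1) ∧ x1 = X d k i) ∨ (x0 = X d k i ∧ x1 = X d k (i + 1))) :
    gam x0 x1 k '' Ico 0 5 = frontier (tile d k i) := by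
  have hX := (X_lt d k i (i + 1)).2 (by omega)
  have hne : x0 - x1 ≠ 0 := by
    rcases h with ⟨rfl, rfl⟩ | ⟨rfl, rfl⟩
    · exact sub_ne_zero.2 hX.ne'
    · exact sub_ne_zero.2 hX.ne
  ext p
  rw [frontier_tile]
  constructor
  · rintro ⟨s, ⟨hs0, hs5⟩, rfl⟩
    simp only [mem_tile, gam_zero, gam_one]
    rcases h with ⟨rfl, rfl⟩ | ⟨rfl, rfl⟩ <;>
    rcases uv_cases s hs0 hs5.le with ⟨a1, a2, a3⟩ | ⟨a0, a1, a2, a3⟩ | ⟨a0, a1, a2, a3⟩ |
      ⟨a1, a2, a3⟩ <;> rw [a2, a3]
    · refine ⟨⟨?_, ?_, ?_, ?_⟩, ?_⟩ <;> first | nlinarith | (right; left; ring)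
    · refine ⟨⟨?_, ?_, ?_, ?_⟩, ?_⟩ <;> first | nlinarith | (right; right; right; ring)
    · refine ⟨⟨?_, ?_, ?_, ?_⟩, ?_⟩ <;> first | nlinarith | (left; ring)
    · refine ⟨⟨?_, ?_, ?_, ?_⟩, ?_⟩ <;> first | nlinarith | (right; right; left; ring)
    · refine ⟨⟨?_, ?_, ?_, ?_⟩, ?_⟩ <;> first | nlinarith | (left; ring)
    · refine ⟨⟨?_, ?_, ?_, ?_⟩, ?_⟩ <;> first | nlinarith | (right; right; right; ring)
    · refine ⟨⟨?_, ?_, ?_, ?_⟩, ?_⟩ <;> first | nlinarith | (right; left; ring)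
    · refine ⟨⟨?_, ?_, ?_, ?_⟩, ?_⟩ <;> first | nlinarith | (right; right; left; ring)
  · rintro ⟨⟨h1, h2, h3, h4⟩, h5⟩
    have ext2 : ∀ s : ℝ, x1 + (x0 - x1) * uu s = p 0 → (k : ℝ) + vv s = p 1 →
        gam x0 x1 k s = p := by
      intro s e0 e1
      ext j
      fin_cases j
      · exact e0
      · exact e1
    -- normalised coordinate
    obtain ⟨U, hU⟩ : ∃ U : ℝ, p 0 = x1 + (x0 - x1) * U := ⟨(p 0 - x1) / (x0 - x1), by
      field_simp; ring⟩
    have hU01 : 0 ≤ U ∧ U ≤ 1 := by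
      rcases h with ⟨rfl, rfl⟩ | ⟨rfl, rfl⟩
      · have hpos : 0 < X d k (i + 1) - X d k i := sub_pos.2 hX
        constructor
        · by_contra hc
          push Not at hc
          nlinarith
        · by_contra hc
          push Not at hc
          nlinarith
      · have hpos : 0 < X d k (i + 1) - X d k i := sub_pos.2 hX
        constructor
        · by_contra hc
          push Not at hc
          nlinarith
        · by_contra hc
          push Not at hc
          nlinarith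
    have hcase : U = 0 ∨ U = 1 ∨ p 1 = k ∨ p 1 = (k : ℝ) + 1 := by
      rcases h5 with h5 | h5 | h5 | h5
      · rcases h with ⟨rfl, rfl⟩ | ⟨rfl, rfl⟩
        · left
          have : (X d k (i + 1) - X d k i) * U = 0 := by linarith
          rcases mul_eq_zero.1 this with h' | h'
          · exact absurd h' hne
          · exact h'
        · right; left
          have : (X d k i - X d k (i + 1)) * (U - 1) = 0 := by linarith
          rcases mul_eq_zero.1 this with h' | h'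
          · exact absurd h' hne
          · linarith
      · rcases h with ⟨rfl, rfl⟩ | ⟨rfl, rfl⟩
        · right; left
          have : (X d k (i + 1) - X d k i) * (U - 1) = 0 := by linarith
          rcases mul_eq_zero.1 this with h' | h'
          · exact absurd h' hne
          · linarith
        · left
          have : (X d k i - X d k (i + 1)) * U = 0 := by linarith
          rcases mul_eq_zero.1 this with h' | h'
          · exact absurd h' hne
          · exact h'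
      · right; right; left; exact h5
      · right; right; right; exact h5
    obtain ⟨hU0, hU1⟩ := hU01
    -- values of the curve
    have c1 : ∀ s : ℝ, 0 ≤ s → s ≤ 1 → uu s = 1 ∧ vv s = s := by
      intro s hs hs'
      rcases uv_cases s hs (by linarith) with ⟨a1, a2, a3⟩ | ⟨a0, a1, a2, a3⟩ | ⟨a0, a1, a2, a3⟩ |
        ⟨a1, a2, a3⟩
      · exact ⟨a2, a3⟩
      · exact ⟨by linarith, by linarith⟩
      · linarith
      · linarith
    have c2 : ∀ s : ℝ, 1 ≤ s → s ≤ 3 → uu s = (3 - s) / 2 ∧ vv s = 1 := by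
      intro s hs hs'
      rcases uv_cases s (by linarith) (by linarith) with ⟨a1, a2, a3⟩ | ⟨a0, a1, a2, a3⟩ |
        ⟨a0, a1, a2, a3⟩ | ⟨a1, a2, a3⟩
      · exact ⟨by linarith, by linarith⟩
      · exact ⟨a2, a3⟩
      · exact ⟨by linarith, by linarith⟩
      · linarith
    have c3 : ∀ s : ℝ, 3 ≤ s → s ≤ 4 → uu s = 0 ∧ vv s = 4 - s := by
      intro s hs hs'
      rcases uv_cases s (by linarith) (by linarith) with ⟨a1, a2, a3⟩ | ⟨a0, a1, a2, a3⟩ |
        ⟨a0, a1, a2, a3⟩ | ⟨a1, a2, a3⟩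
      · linarith
      · exact ⟨by linarith, by linarith⟩
      · exact ⟨a2, a3⟩
      · exact ⟨by linarith, by linarith⟩
    have c4 : ∀ s : ℝ, 4 ≤ s → s ≤ 5 → uu s = s - 4 ∧ vv s = 0 := by
      intro s hs hs'
      rcases uv_cases s (by linarith) (by linarith) with ⟨a1, a2, a3⟩ | ⟨a0, a1, a2, a3⟩ |
        ⟨a0, a1, a2, a3⟩ | ⟨a1, a2, a3⟩
      · linarith
      · linarith
      · exact ⟨by linarith, by linarith⟩
      · exact ⟨a2, a3⟩
    rcases hcase with h6 | h6 | h6 | h6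
    · obtain ⟨g1, g2⟩ := c3 (4 - (p 1 - k)) (by linarith) (by linarith)
      refine ⟨4 - (p 1 - k), ⟨by linarith, by linarith⟩, ext2 _ ?_ ?_⟩
      · rw [g1, hU, h6]
      · rw [g2]; ring
    · obtain ⟨g1, g2⟩ := c1 (p 1 - k) (by linarith) (by linarith)
      refine ⟨p 1 - k, ⟨by linarith, by linarith⟩, ext2 _ ?_ ?_⟩
      · rw [g1, hU, h6]
      · rw [g2]; ring
    · rcases eq_or_lt_of_le hU1 with h7 | h7
      · obtain ⟨g1, g2⟩ := c1 0 (by linarith) (by linarith)
        refine ⟨0, ⟨by linarith, by linarith⟩, ext2 _ ?_ ?_⟩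
        · rw [g1, hU, h7]
        · rw [g2, h6]; ring
      · obtain ⟨g1, g2⟩ := c4 (4 + U) (by linarith) (by linarith)
        refine ⟨4 + U, ⟨by linarith, by linarith⟩, ext2 _ ?_ ?_⟩
        · rw [g1, hU]; ring
        · rw [g2, h6]; ring
    · obtain ⟨g1, g2⟩ := c2 (3 - 2 * U) (by linarith) (by linarith)
      refine ⟨3 - 2 * U, ⟨by linarith, by linarith⟩, ext2 _ ?_ ?_⟩
      · rw [g1, hU]; ring
      · rw [g2, h6]

theorem gam_vals (x0 x1 e : ℝ) : gam x0 x1 e 0 = !₂[x0, e] ∧ gam x0 x1 e 1 = !₂[x0, e + 1] ∧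
    gam x0 x1 e 2 = !₂[(x0 + x1) / 2, e + 1] ∧ gam x0 x1 e 3 = !₂[x1, e + 1] ∧
    gam x0 x1 e 4 = !₂[x1, e] ∧ gam x0 x1 e 5 = !₂[x0, e] := by
  have u0 : uu 0 = 1 := by unfold uu; norm_num
  have u1 : uu 1 = 1 := by unfold uu; norm_num
  have u2 : uu 2 = 1 / 2 := by unfold uu; norm_num
  have u3 : uu 3 = 0 := by unfold uu; norm_num
  have u4 : uu 4 = 0 := by unfold uu; norm_num
  have u5 : uu 5 = 1 := by unfold uu; norm_num
  have v0 : vv 0 = 0 := by unfold vv; norm_num
  have v1 : vv 1 = 1 := by unfold vv; norm_num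
  have v2 : vv 2 = 1 := by unfold vv; norm_num
  have v3 : vv 3 = 1 := by unfold vv; norm_num
  have v4 : vv 4 = 0 := by unfold vv; norm_num
  have v5 : vv 5 = 0 := by unfold vv; norm_num
  unfold gam
  rw [u0, u1, u2, u3, u4, u5, v0, v1, v2, v3, v4, v5]
  refine ⟨?_, ?_, ?_, ?_, ?_, ?_⟩ <;> congr 1 <;> ext j <;> fin_cases j <;> simp <;> ring

theorem X_up (d : ℕ → Bool) (k i : ℤ) : X d k i = X d (k + 1) (2 * i - cc d (k + 1)) := by
  have := X_rel d (k + 1) i
  rwa [show k + 1 - 1 = k by ring] at this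

theorem X_mid (d : ℕ → Bool) (k i : ℤ) :
    (X d k i + X d k (i + 1)) / 2 = X d (k + 1) (2 * i + 1 - cc d (k + 1)) := by
  rw [X_up d k i, X_up d k (i + 1)]
  unfold X
  push_cast
  ring

theorem hasType (d : ℕ → Bool) (k i : ℤ) :
    HasValenceType (Tl d) (tile d k i) ![3, 4, 3, 4, 4] := by
  have hX := (X_lt d k i (i + 1)).2 (by omega)
  have hc := cc_cases d (k + 1)
  have e4 : k + 1 - 1 = k := by ring
  by_cases hp : (i + cc d k) % 2 = 0
  · obtain ⟨g0, g1, g2, g3, g4, g5⟩ := gam_vals (X d k (i + 1)) (X d k i) k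
    have w0 : gam (X d k (i + 1)) (X d k i) k 0 = V d k (i + 1) := g0
    have w1 : gam (X d k (i + 1)) (X d k i) k 1 = V d (k + 1) (2 * i + 2 - cc d (k + 1)) := by
      rw [g1]; unfold V; rw [X_up d k (i + 1)]; push_cast; congr 3; ring
    have w2 : gam (X d k (i + 1)) (X d k i) k 2 = V d (k + 1) (2 * i + 1 - cc d (k + 1)) := by
      rw [g2]; unfold V; rw [← X_mid]; push_cast; rw [add_comm (X d k (i + 1))]
    have w3 : gam (X d k (i + 1)) (X d k i) k 3 = V d (k + 1) (2 * i - cc d (k + 1)) := by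
      rw [g3]; unfold V; rw [X_up d k i]; push_cast; rfl
    have w4 : gam (X d k (i + 1)) (X d k i) k 4 = V d k i := g4
    refine ⟨gam (X d k (i + 1)) (X d k i) k, (continuous_gam _ _ _).continuousOn, ?_, ?_, ?_, ?_, ?_⟩
    · push_cast
      rw [g0, g5]
    · push_cast
      exact injOn_gam _ _ _ hX.ne'
    · push_cast
      exact image_gam d k i _ _ (Or.inl ⟨rfl, rfl⟩)
    · intro p hpt
      constructor
      · intro hv
        obtain ⟨k2, m2, rfl⟩ := vertex_V d p hv
        rw [V_mem] at hpt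
        have hcand : (k2 = k ∧ m2 = i + 1) ∨ (k2 = k + 1 ∧ m2 = 2 * i + 2 - cc d (k + 1)) ∨
            (k2 = k + 1 ∧ m2 = 2 * i + 1 - cc d (k + 1)) ∨
            (k2 = k + 1 ∧ m2 = 2 * i - cc d (k + 1)) ∨ (k2 = k ∧ m2 = i) := by
          rcases hpt with ⟨h1, h2, h3⟩ | ⟨h1, h2, h3⟩
          · subst h1
            omega
          · have h1' : k2 = k + 1 := by omega
            subst h1'
            omega
        rcases hcand with ⟨rfl, rfl⟩ | ⟨rfl, rfl⟩ | ⟨rfl, rfl⟩ | ⟨rfl, rfl⟩ | ⟨rfl, rfl⟩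
        · exact ⟨0, by simpa using w0.symm⟩
        · exact ⟨1, by simpa using w1.symm⟩
        · exact ⟨2, by simpa using w2.symm⟩
        · exact ⟨3, by simpa using w3.symm⟩
        · exact ⟨4, by simpa using w4.symm⟩
      · rintro ⟨j, rfl⟩
        fin_cases j
        · simp only [Nat.cast_zero]; rw [w0]; exact V_vertex _ _ _
        · simp only [Nat.cast_one]; rw [w1]; exact V_vertex _ _ _
        · simp only [Nat.cast_ofNat]; rw [w2]; exact V_vertex _ _ _
        · simp only [Nat.cast_ofNat]; rw [w3]; exact V_vertex _ _ _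
        · simp only [Nat.cast_ofNat]; rw [w4]; exact V_vertex _ _ _
    · intro j
      fin_cases j
      · simp only [Nat.cast_zero]; rw [w0, valence_V, if_neg (by omega)]; rfl
      · simp only [Nat.cast_one]; rw [w1, valence_V, if_pos (by omega)]; rfl
      · simp only [Nat.cast_ofNat]; rw [w2, valence_V, if_neg (by omega)]; rfl
      · simp only [Nat.cast_ofNat]; rw [w3, valence_V, if_pos (by omega)]; rfl
      · simp only [Nat.cast_ofNat]; rw [w4, valence_V, if_pos (by omega)]; rfl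
  · obtain ⟨g0, g1, g2, g3, g4, g5⟩ := gam_vals (X d k i) (X d k (i + 1)) k
    have w0 : gam (X d k i) (X d k (i + 1)) k 0 = V d k i := g0
    have w1 : gam (X d k i) (X d k (i + 1)) k 1 = V d (k + 1) (2 * i - cc d (k + 1)) := by
      rw [g1]; unfold V; rw [X_up d k i]; push_cast; rfl
    have w2 : gam (X d k i) (X d k (i + 1)) k 2 = V d (k + 1) (2 * i + 1 - cc d (k + 1)) := by
      rw [g2]; unfold V; rw [← X_mid]; push_cast; rfl
    have w3 : gam (X d k i) (X d k (i + 1)) k 3 = V d (k + 1) (2 * i + 2 - cc d (k + 1)) := by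
      rw [g3]; unfold V; rw [X_up d k (i + 1)]; push_cast; congr 3; ring
    have w4 : gam (X d k i) (X d k (i + 1)) k 4 = V d k (i + 1) := g4
    refine ⟨gam (X d k i) (X d k (i + 1)) k, (continuous_gam _ _ _).continuousOn, ?_, ?_, ?_, ?_, ?_⟩
    · push_cast
      rw [g0, g5]
    · push_cast
      exact injOn_gam _ _ _ hX.ne
    · push_cast
      exact image_gam d k i _ _ (Or.inr ⟨rfl, rfl⟩)
    · intro p hpt
      constructor
      · intro hv
        obtain ⟨k2, m2, rfl⟩ := vertex_V d p hv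
        rw [V_mem] at hpt
        have hcand : (k2 = k ∧ m2 = i) ∨ (k2 = k + 1 ∧ m2 = 2 * i - cc d (k + 1)) ∨
            (k2 = k + 1 ∧ m2 = 2 * i + 1 - cc d (k + 1)) ∨
            (k2 = k + 1 ∧ m2 = 2 * i + 2 - cc d (k + 1)) ∨ (k2 = k ∧ m2 = i + 1) := by
          rcases hpt with ⟨h1, h2, h3⟩ | ⟨h1, h2, h3⟩
          · subst h1
            omega
          · have h1' : k2 = k + 1 := by omega
            subst h1'
            omega
        rcases hcand with ⟨rfl, rfl⟩ | ⟨rfl, rfl⟩ | ⟨rfl, rfl⟩ | ⟨rfl, rfl⟩ | ⟨rfl, rfl⟩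
        · exact ⟨0, by simpa using w0.symm⟩
        · exact ⟨1, by simpa using w1.symm⟩
        · exact ⟨2, by simpa using w2.symm⟩
        · exact ⟨3, by simpa using w3.symm⟩
        · exact ⟨4, by simpa using w4.symm⟩
      · rintro ⟨j, rfl⟩
        fin_cases j
        · simp only [Nat.cast_zero]; rw [w0]; exact V_vertex _ _ _
        · simp only [Nat.cast_one]; rw [w1]; exact V_vertex _ _ _
        · simp only [Nat.cast_ofNat]; rw [w2]; exact V_vertex _ _ _
        · simp only [Nat.cast_ofNat]; rw [w3]; exact V_vertex _ _ _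
        · simp only [Nat.cast_ofNat]; rw [w4]; exact V_vertex _ _ _
    · intro j
      fin_cases j
      · simp only [Nat.cast_zero]; rw [w0, valence_V, if_neg (by omega)]; rfl
      · simp only [Nat.cast_one]; rw [w1, valence_V, if_pos (by omega)]; rfl
      · simp only [Nat.cast_ofNat]; rw [w2, valence_V, if_neg (by omega)]; rfl
      · simp only [Nat.cast_ofNat]; rw [w3, valence_V, if_pos (by omega)]; rfl
      · simp only [Nat.cast_ofNat]; rw [w4, valence_V, if_pos (by omega)]; rfl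

theorem homogeneous_Tl (d : ℕ → Bool) : IsHomogeneous (Tl d) ![3, 4, 3, 4, 4] := by
  refine ⟨isTiling_Tl d, ?_⟩
  rintro _ ⟨a, rfl⟩
  exact hasType d a.1 a.2

theorem main : ∃ S : Set (Set (Set E2)), ¬ S.Countable ∧
    (∀ T ∈ S, IsHomogeneous T ![3, 4, 3, 4, 4]) ∧
      ∀ T ∈ S, ∀ T' ∈ S, T ≠ T' → ¬ TopEquiv T T' :=
  uncountable_family (fun T => IsHomogeneous T ![3, 4, 3, 4, 4]) fun b => homogeneous_Tl (pre b)

end Pool.Agent.Q139.Bin
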