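import Pool.Agent.Q139.Bin.Defs

/-! Topologically invariant relations of a tiling. -/

namespace Pool.Agent.Q139.Bin

/-- `q` is the 4-valent point of the tile `s` that is joined inside `s` to no other 4-valent
point. -/
def Mk (T : Set (Set E2)) (s : Set E2) (q : E2) : Prop :=
  s ∈ T ∧ q ∈ s ∧ valence T q = 4 ∧
    ∀ t ∈ T, t ≠ s → q ∈ t → ∀ q', q' ∈ s → q' ∈ t → q' ≠ q → valence T q' ≠ 4

def Par (T : Set (Set E2)) (s u : Set E2) : Prop :=
  s ∈ T ∧ u ∈ T ∧ s ≠ u ∧ ∃ t ∈ T, t ≠ s ∧ t ≠ u ∧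
    ∃ p, p ∈ s ∧ p ∈ t ∧ p ∈ u ∧ valence T p = 3 ∧ ∃ q ∈ t, Mk T s q ∧ Mk T t q

def Dif (T : Set (Set E2)) (s u : Set E2) : Prop := ∃ q ∈ s, Mk T u q

def Bits (T : Set (Set E2)) (t : Set E2) (b : ℕ → Bool) : Prop :=
  ∃ f : ℕ → Set E2, f 0 = t ∧ (∀ n, Par T (f n) (f (n + 1))) ∧
    ∀ n, b n = true ↔ Dif T (f n) (f (n + 1))

section inv
variable {T T' : Set (Set E2)} (φ : E2 ≃ E2) (h : (fun t : Set E2 => φ '' t) '' T = T')
include h

theorem mem_iff (t : Set E2) : φ '' t ∈ T' ↔ t ∈ T := by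
  rw [← h]
  constructor
  · rintro ⟨s, hs, hst⟩
    have : s = t := φ.injective.image_injective hst
    rwa [← this]
  · intro ht
    exact ⟨t, ht, rfl⟩

theorem exists_of_mem (t : Set E2) (ht : t ∈ T') : ∃ s ∈ T, φ '' s = t := by
  rw [← h] at ht
  exact ht

theorem pt_iff (t : Set E2) (p : E2) : φ p ∈ φ '' t ↔ p ∈ t :=
  φ.injective.mem_set_image

theorem valence_eq (p : E2) : valence T' (φ p) = valence T p := by
  unfold valence
  have : {t ∈ T' | φ p ∈ t} = (fun t : Set E2 => φ '' t) '' {t ∈ T | p ∈ t} := by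
    ext t
    simp only [Set.mem_ofPred_eq, Set.mem_image]
    constructor
    · rintro ⟨ht, hp⟩
      obtain ⟨s, hs, rfl⟩ := exists_of_mem φ h t ht
      exact ⟨s, ⟨hs, (pt_iff φ h s p).1 hp⟩, rfl⟩
    · rintro ⟨s, ⟨hs, hp⟩, rfl⟩
      exact ⟨(mem_iff φ h s).2 hs, (pt_iff φ h s p).2 hp⟩
  rw [this, Set.ncard_image_of_injective _ φ.injective.image_injective]

theorem Mk_iff (s : Set E2) (q : E2) : Mk T' (φ '' s) (φ q) ↔ Mk T s q := by
  unfold Mk
  rw [mem_iff φ h, pt_iff φ h, valence_eq φ h]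
  constructor
  · rintro ⟨h1, h2, h3, h4⟩
    refine ⟨h1, h2, h3, fun t ht hts hqt q' hq' hq't hne => ?_⟩
    have := h4 (φ '' t) ((mem_iff φ h t).2 ht)
      (fun e => hts (φ.injective.image_injective e)) ((pt_iff φ h t q).2 hqt) (φ q')
      ((pt_iff φ h s q').2 hq') ((pt_iff φ h t q').2 hq't) (fun e => hne (φ.injective e))
    rwa [valence_eq φ h] at this
  · rintro ⟨h1, h2, h3, h4⟩
    refine ⟨h1, h2, h3, fun t ht hts hqt q' hq' hq't hne => ?_⟩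
    obtain ⟨u, hu, rfl⟩ := exists_of_mem φ h t ht
    obtain ⟨r, rfl⟩ := φ.surjective q'
    have := h4 u hu (fun e => hts (by rw [e])) ((pt_iff φ h u q).1 hqt) r
      ((pt_iff φ h s r).1 hq') ((pt_iff φ h u r).1 hq't) (fun e => hne (by rw [e]))
    rwa [valence_eq φ h]

theorem Par_image (s u : Set E2) (hp : Par T s u) : Par T' (φ '' s) (φ '' u) := by
  obtain ⟨h1, h2, h3, t, ht, hts, htu, p, hps, hpt, hpu, hv, q, hqt, hm, hm'⟩ := hp
  exact ⟨(mem_iff φ h s).2 h1, (mem_iff φ h u).2 h2, fun e => h3 (φ.injective.image_injective e),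
    φ '' t, (mem_iff φ h t).2 ht, fun e => hts (φ.injective.image_injective e),
    fun e => htu (φ.injective.image_injective e), φ p, (pt_iff φ h s p).2 hps,
    (pt_iff φ h t p).2 hpt, (pt_iff φ h u p).2 hpu, by rw [valence_eq φ h, hv],
    φ q, (pt_iff φ h t q).2 hqt, (Mk_iff φ h s q).2 hm, (Mk_iff φ h t q).2 hm'⟩

theorem Dif_iff (s u : Set E2) : Dif T' (φ '' s) (φ '' u) ↔ Dif T s u := by
  unfold Dif
  constructor
  · rintro ⟨q, hq, hm⟩
    obtain ⟨r, rfl⟩ := φ.surjective q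
    exact ⟨r, (pt_iff φ h s r).1 hq, (Mk_iff φ h u r).1 hm⟩
  · rintro ⟨q, hq, hm⟩
    exact ⟨φ q, (pt_iff φ h s q).2 hq, (Mk_iff φ h u q).2 hm⟩

theorem Bits_image (t : Set E2) (b : ℕ → Bool) (hb : Bits T t b) : Bits T' (φ '' t) b := by
  obtain ⟨f, hf0, hf1, hf2⟩ := hb
  refine ⟨fun n => φ '' f n, by simp only [hf0], fun n => Par_image φ h _ _ (hf1 n), fun n => ?_⟩
  rw [hf2 n]
  exact (Dif_iff φ h _ _).symm

end inv

end Pool.Agent.Q139.Bin
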