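import Mathlib

/-!
Tilings of the Euclidean plane by closed topological disks, valences, homogeneous tilings and
topological equivalence.
-/

open Topology

namespace Pool.Agent.Q139.Bin

/-- The Euclidean plane. -/
abbrev E2 := EuclideanSpace ℝ (Fin 2)

/-- A set `T` of subsets of the plane is a tiling in the sense of the problem file: a countable
family of closed sets with union the plane and pairwise disjoint interiors, every tile is a closed
topological disk (N.1), two different tiles have empty or connected intersection (N.2), and there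
is no singular point: every point has a neighbourhood that meets only finitely many tiles. -/
structure IsTiling (T : Set (Set E2)) : Prop where
  countable : T.Countable
  closed : ∀ t ∈ T, IsClosed t
  cover : ∀ p : E2, ∃ t ∈ T, p ∈ t
  disjoint : ∀ s ∈ T, ∀ t ∈ T, s ≠ t → Disjoint (interior s) (interior t)
  disk : ∀ t ∈ T, Nonempty (t ≃ₜ Metric.closedBall (0 : E2) 1)
  inter : ∀ s ∈ T, ∀ t ∈ T, s ≠ t → s ∩ t = ∅ ∨ IsConnected (s ∩ t)
  nonsingular : ∀ p : E2, ∃ U ∈ 𝓝 p, {t ∈ T | (t ∩ U).Nonempty}.Finite

/-- The valence of a point: the number of tiles that contain it. -/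
noncomputable def valence (T : Set (Set E2)) (p : E2) : ℕ := {t ∈ T | p ∈ t}.ncard

/-- A vertex is a point that lies in at least three tiles. -/
def IsVertex (T : Set (Set E2)) (p : E2) : Prop := 3 ≤ valence T p

/-- The tile `t` has exactly `n` vertices, and their valences, read in cyclic order around the
boundary of `t`, are `j 0, ..., j (n - 1)` (up to cyclic shift and reversal): there is a simple
closed curve `γ : [0, n] → ∂t` onto the boundary of `t` such that the vertices in `t` are exactly
the points `γ 0, γ 1, ..., γ (n - 1)`, and `γ i` has valence `j i`. -/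
def HasValenceType (T : Set (Set E2)) (t : Set E2) {n : ℕ} (j : Fin n → ℕ) : Prop :=
  ∃ γ : ℝ → E2, ContinuousOn γ (Set.Icc 0 (n : ℝ)) ∧ γ 0 = γ n ∧ Set.InjOn γ (Set.Ico 0 (n : ℝ)) ∧
    γ '' Set.Ico 0 (n : ℝ) = frontier t ∧
    (∀ p ∈ t, IsVertex T p ↔ ∃ i : Fin n, p = γ ((i : ℕ) : ℝ)) ∧
    ∀ i : Fin n, valence T (γ ((i : ℕ) : ℝ)) = j i

/-- `T` is a homogeneous tiling of type `[j 0 . j 1 . ... . j (n - 1)]`. -/
def IsHomogeneous (T : Set (Set E2)) {n : ℕ} (j : Fin n → ℕ) : Prop :=
  IsTiling T ∧ ∀ t ∈ T, HasValenceType T t j

/-- Two tilings are topologically equivalent: some homeomorphism of the plane onto itself maps the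
tiles of the first one bijectively onto the tiles of the second one. -/
def TopEquiv (T T' : Set (Set E2)) : Prop :=
  ∃ φ : E2 ≃ₜ E2, (fun t : Set E2 => φ '' t) '' T = T'

end Pool.Agent.Q139.Bin
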