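import Pool.Agent.Q139.Bin.Comb

/-! The binary tilings: combinatorics of points and tiles. -/

namespace Pool.Agent.Q139.Bin

noncomputable def off (d : ℕ → Bool) (k : ℤ) : ℝ :=
  -∑ m ∈ Finset.range (-k).toNat, (if d m then (2 : ℝ) ^ m else 0)

def cc (d : ℕ → Bool) (k : ℤ) : ℤ := if k ≤ 0 then (if d (-k).toNat then 1 else 0) else 0

noncomputable def X (d : ℕ → Bool) (k i : ℤ) : ℝ := off d k + i * (2 : ℝ) ^ (-k)

def tile (d : ℕ → Bool) (k i : ℤ) : Set E2 :=
  {p | X d k i ≤ p 0 ∧ p 0 ≤ X d k (i + 1) ∧ (k : ℝ) ≤ p 1 ∧ p 1 ≤ (k : ℝ) + 1}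

noncomputable def V (d : ℕ → Bool) (k m : ℤ) : E2 := !₂[X d k m, (k : ℝ)]

def Tl (d : ℕ → Bool) : Set (Set E2) := Set.range (fun a : ℤ × ℤ => tile d a.1 a.2)

theorem cc_cases (d : ℕ → Bool) (k : ℤ) : cc d k = 0 ∨ cc d k = 1 := by
  unfold cc
  split_ifs <;> simp

theorem X_rel (d : ℕ → Bool) (k j : ℤ) : X d (k - 1) j = X d k (2 * j - cc d k) := by
  have h2 : (2 : ℝ) ^ (-(k - 1)) = 2 * (2 : ℝ) ^ (-k) := by
    rw [show -(k - 1) = 1 + -k by ring, zpow_add₀ (by norm_num), zpow_one]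
  have h3 : off d (k - 1) = off d k - cc d k * (2 : ℝ) ^ (-k) := by
    unfold off cc
    by_cases hk : k ≤ 0
    · rw [if_pos hk, show (-(k - 1)).toNat = (-k).toNat + 1 by omega, Finset.sum_range_succ]
      have h4 : (2 : ℝ) ^ (-k) = (2 : ℝ) ^ (-k).toNat := by
        conv_lhs => rw [show (-k) = ((-k).toNat : ℤ) by omega]
        rw [zpow_natCast]
      rw [h4]
      by_cases hd : d (-k).toNat = true
      · simp only [hd, if_true]
        push_cast
        ring
      · simp only [hd, Bool.false_eq_true, if_false]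
        push_cast
        ring
    · rw [if_neg hk, show (-(k - 1)).toNat = 0 by omega, show (-k).toNat = 0 by omega]
      simp
  unfold X
  rw [h2, h3]
  push_cast
  ring

theorem w_pos (k : ℤ) : (0 : ℝ) < (2 : ℝ) ^ (-k) := zpow_pos (by norm_num) _

theorem X_mono (d : ℕ → Bool) (k : ℤ) : StrictMono (X d k) := by
  intro i j hij
  unfold X
  have := w_pos k
  have h : (i : ℝ) < j := by exact_mod_cast hij
  nlinarith

theorem X_le (d : ℕ → Bool) (k i j : ℤ) : X d k i ≤ X d k j ↔ i ≤ j := (X_mono d k).le_iff_le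

theorem X_lt (d : ℕ → Bool) (k i j : ℤ) : X d k i < X d k j ↔ i < j := (X_mono d k).lt_iff_lt

theorem exists_idx (d : ℕ → Bool) (k : ℤ) (x : ℝ) : ∃ i, X d k i ≤ x ∧ x < X d k (i + 1) := by
  have hw := w_pos k
  refine ⟨⌊(x - off d k) / (2 : ℝ) ^ (-k)⌋, ?_, ?_⟩
  · have h := Int.floor_le ((x - off d k) / (2 : ℝ) ^ (-k))
    rw [le_div_iff₀ hw] at h
    unfold X
    linarith
  · have h := Int.lt_floor_add_one ((x - off d k) / (2 : ℝ) ^ (-k))
    rw [div_lt_iff₀ hw] at h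
    unfold X
    push_cast
    linarith

@[simp] theorem V_zero (d : ℕ → Bool) (k m : ℤ) : (V d k m) 0 = X d k m := rfl
@[simp] theorem V_one (d : ℕ → Bool) (k m : ℤ) : (V d k m) 1 = (k : ℝ) := rfl

theorem mem_tile (d : ℕ → Bool) (k i : ℤ) (p : E2) : p ∈ tile d k i ↔
    X d k i ≤ p 0 ∧ p 0 ≤ X d k (i + 1) ∧ (k : ℝ) ≤ p 1 ∧ p 1 ≤ (k : ℝ) + 1 := Iff.rfl

theorem V_mem (d : ℕ → Bool) (k m k' i : ℤ) : V d k m ∈ tile d k' i ↔
    (k' = k ∧ i ≤ m ∧ m ≤ i + 1) ∨
      (k' = k - 1 ∧ 2 * i - cc d k ≤ m ∧ m ≤ 2 * i + 2 - cc d k) := by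
  rw [mem_tile, V_zero, V_one]
  constructor
  · rintro ⟨h1, h2, h3, h4⟩
    have h3' : k' ≤ k := Int.cast_le.1 h3
    have h4' : k ≤ k' + 1 := by
      have h5 : (k : ℝ) ≤ ((k' + 1 : ℤ) : ℝ) := by push_cast; exact h4
      exact Int.cast_le.1 h5
    rcases eq_or_lt_of_le h3' with h | h
    · left
      subst h
      exact ⟨rfl, (X_le d _ _ _).1 h1, (X_le d _ _ _).1 h2⟩
    · right
      have hk : k' = k - 1 := by omega
      subst hk
      rw [X_rel] at h1 h2
      rw [X_le] at h1 h2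
      refine ⟨rfl, h1, by linarith⟩
  · rintro (⟨rfl, h1, h2⟩ | ⟨rfl, h1, h2⟩)
    · exact ⟨(X_le d _ _ _).2 h1, (X_le d _ _ _).2 h2, le_refl _, by linarith⟩
    · rw [X_rel, X_rel]
      refine ⟨(X_le d _ _ _).2 h1, (X_le d _ _ _).2 (by linarith), ?_, ?_⟩
      · push_cast; linarith
      · push_cast; linarith

theorem tile_inj (d : ℕ → Bool) (k i k' i' : ℤ) (h : tile d k i = tile d k' i') :
    k = k' ∧ i = i' := by
  have h1 : V d k i ∈ tile d k' i' := by rw [← h, V_mem]; left; omega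
  have h1' : V d k (i + 1) ∈ tile d k' i' := by rw [← h, V_mem]; left; omega
  have h2 : V d k' i' ∈ tile d k i := by rw [h, V_mem]; left; omega
  have h2' : V d k' (i' + 1) ∈ tile d k i := by rw [h, V_mem]; left; omega
  rw [V_mem] at h1 h1' h2 h2'
  omega

theorem idx_inj (d : ℕ → Bool) : Function.Injective (fun a : ℤ × ℤ => tile d a.1 a.2) := by
  rintro ⟨k, i⟩ ⟨k', i'⟩ h
  obtain ⟨h1, h2⟩ := tile_inj d k i k' i' h
  rw [h1, h2]

theorem valence_idx (d : ℕ → Bool) (p : E2) :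
    valence (Tl d) p = {a : ℤ × ℤ | p ∈ tile d a.1 a.2}.ncard := by
  unfold valence
  have : {t ∈ Tl d | p ∈ t} =
      (fun a : ℤ × ℤ => tile d a.1 a.2) '' {a : ℤ × ℤ | p ∈ tile d a.1 a.2} := by
    ext t
    simp only [Tl, Set.mem_ofPred_eq, Set.mem_image, Set.mem_range]
    constructor
    · rintro ⟨⟨a, rfl⟩, hp⟩
      exact ⟨a, hp, rfl⟩
    · rintro ⟨a, hp, rfl⟩
      exact ⟨⟨a, rfl⟩, hp⟩
  rw [this, Set.ncard_image_of_injective _ (idx_inj d)]

theorem valence_four (d : ℕ → Bool) (k m j : ℤ) (h : m + cc d k = 2 * j) :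
    valence (Tl d) (V d k m) = 4 := by
  rw [valence_idx]
  have : {a : ℤ × ℤ | V d k m ∈ tile d a.1 a.2} =
      (({(k, m - 1), (k, m), (k - 1, j - 1), (k - 1, j)} : Finset (ℤ × ℤ)) : Set (ℤ × ℤ)) := by
    ext ⟨k', i⟩
    simp only [Set.mem_ofPred_eq, V_mem, Finset.coe_insert, Finset.coe_singleton,
      Set.mem_insert_iff, Set.mem_singleton_iff, Prod.mk.injEq]
    omega
  rw [this, Set.ncard_coe_finset]
  rw [Finset.card_insert_of_notMem, Finset.card_insert_of_notMem, Finset.card_insert_of_notMem,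
    Finset.card_singleton]
  · simp
  · simp; omega
  · simp; omega

theorem valence_three (d : ℕ → Bool) (k m j : ℤ) (h : m + cc d k = 2 * j + 1) :
    valence (Tl d) (V d k m) = 3 := by
  rw [valence_idx]
  have : {a : ℤ × ℤ | V d k m ∈ tile d a.1 a.2} =
      (({(k, m - 1), (k, m), (k - 1, j)} : Finset (ℤ × ℤ)) : Set (ℤ × ℤ)) := by
    ext ⟨k', i⟩
    simp only [Set.mem_ofPred_eq, V_mem, Finset.coe_insert, Finset.coe_singleton,
      Set.mem_insert_iff, Set.mem_singleton_iff, Prod.mk.injEq]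
    omega
  rw [this, Set.ncard_coe_finset]
  rw [Finset.card_insert_of_notMem, Finset.card_insert_of_notMem, Finset.card_singleton]
  · simp; omega
  · simp; omega

theorem V_ext (d : ℕ → Bool) (k m : ℤ) (p : E2) (h0 : p 0 = X d k m) (h1 : p 1 = (k : ℝ)) :
    p = V d k m := by
  ext i
  fin_cases i
  · exact h0
  · exact h1

/-- A vertex is one of the points `V d k m`. -/
theorem vertex_V (d : ℕ → Bool) (p : E2) (h : IsVertex (Tl d) p) : ∃ k m, p = V d k m := by
  by_contra hne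
  push Not at hne
  unfold IsVertex at h
  rw [valence_idx] at h
  -- the level
  by_cases hy : ∃ k : ℤ, p 1 = (k : ℝ)
  · obtain ⟨k, hk⟩ := hy
    obtain ⟨i, hi1, hi2⟩ := exists_idx d k (p 0)
    have hi3 : X d k i < p 0 := by
      rcases eq_or_lt_of_le hi1 with h' | h'
      · exact absurd (V_ext d k i p h'.symm hk) (hne k i)
      · exact h'
    have hsub : {a : ℤ × ℤ | p ∈ tile d a.1 a.2} ⊆
        (({(k, i), (k - 1, (i + cc d k) / 2)} : Finset (ℤ × ℤ)) : Set (ℤ × ℤ)) := by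
      rintro ⟨k', i'⟩ hp
      simp only [Set.mem_ofPred_eq, mem_tile] at hp
      obtain ⟨g1, g2, g3, g4⟩ := hp
      rw [hk] at g3 g4
      have g3' : k' ≤ k := Int.cast_le.1 g3
      have g4' : k ≤ k' + 1 := by
        have h5 : (k : ℝ) ≤ ((k' + 1 : ℤ) : ℝ) := by push_cast; exact g4
        exact Int.cast_le.1 h5
      simp only [Finset.coe_insert, Finset.coe_singleton,
        Set.mem_insert_iff, Set.mem_singleton_iff, Prod.mk.injEq]
      rcases eq_or_lt_of_le g3' with h' | h'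
      · left
        subst h'
        have e1 := (X_lt d k' _ _).1 (lt_of_le_of_lt g1 hi2)
        have e2 := (X_lt d k' _ _).1 (lt_of_lt_of_le hi3 g2)
        omega
      · right
        have hk' : k' = k - 1 := by omega
        subst hk'
        rw [X_rel] at g1 g2
        have e1 := (X_lt d k _ _).1 (lt_of_le_of_lt g1 hi2)
        have e2 := (X_lt d k _ _).1 (lt_of_lt_of_le hi3 g2)
        omega
    have h5 := Set.ncard_le_ncard hsub (Finset.finite_toSet _)
    rw [Set.ncard_coe_finset] at h5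
    have h6 : ({(k, i), (k - 1, (i + cc d k) / 2)} : Finset (ℤ × ℤ)).card ≤ 2 :=
      Finset.card_le_two
    omega
  · obtain ⟨i, hi1, hi2⟩ := exists_idx d ⌊p 1⌋ (p 0)
    have hsub : {a : ℤ × ℤ | p ∈ tile d a.1 a.2} ⊆
        (({(⌊p 1⌋, i), (⌊p 1⌋, i - 1)} : Finset (ℤ × ℤ)) : Set (ℤ × ℤ)) := by
      rintro ⟨k', i'⟩ hp
      simp only [Set.mem_ofPred_eq, mem_tile] at hp
      obtain ⟨g1, g2, g3, g4⟩ := hp
      have hk' : ⌊p 1⌋ = k' := by
        rw [Int.floor_eq_iff]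
        refine ⟨g3, lt_of_le_of_ne g4 (fun e => hy ⟨k' + 1, by push_cast; exact e⟩)⟩
      rw [hk'] at hi1 hi2
      have e1 := (X_lt d k' _ _).1 (lt_of_le_of_lt g1 hi2)
      have e2 := (X_le d k' _ _).1 (le_trans hi1 g2)
      simp only [Finset.coe_insert, Finset.coe_singleton,
        Set.mem_insert_iff, Set.mem_singleton_iff, Prod.mk.injEq]
      omega
    have h5 := Set.ncard_le_ncard hsub (Finset.finite_toSet _)
    rw [Set.ncard_coe_finset] at h5
    have h6 : ({(⌊p 1⌋, i), (⌊p 1⌋, i - 1)} : Finset (ℤ × ℤ)).card ≤ 2 :=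
      Finset.card_le_two
    omega

theorem V_vertex (d : ℕ → Bool) (k m : ℤ) : IsVertex (Tl d) (V d k m) := by
  unfold IsVertex
  rcases Int.emod_two_eq_zero_or_one (m + cc d k) with h | h
  · rw [valence_four d k m ((m + cc d k) / 2) (by omega)]; norm_num
  · rw [valence_three d k m ((m + cc d k) / 2) (by omega)]

theorem V_inj (d : ℕ → Bool) (k m k' m' : ℤ) (h : V d k m = V d k' m') : k = k' ∧ m = m' := by
  have h1 : (k : ℝ) = k' := by rw [← V_one d k m, h, V_one]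
  have h1' : k = k' := by exact_mod_cast h1
  subst h1'
  have h2 : X d k m = X d k m' := by rw [← V_zero d k m, h, V_zero]
  exact ⟨rfl, (X_mono d k).injective h2⟩

end Pool.Agent.Q139.Bin
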