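import Pool.Agent.Q139.Bin.Geom

/-! The topological invariants of the binary tilings. -/

namespace Pool.Agent.Q139.Bin

theorem tile_mem (d : ℕ → Bool) (k i : ℤ) : tile d k i ∈ Tl d := ⟨(k, i), rfl⟩

theorem valence_V (d : ℕ → Bool) (k m : ℤ) :
    valence (Tl d) (V d k m) = if (m + cc d k) % 2 = 0 then 4 else 3 := by
  split_ifs with h
  · exact valence_four d k m ((m + cc d k) / 2) (by omega)
  · exact valence_three d k m ((m + cc d k) / 2) (by omega)

theorem four_V (d : ℕ → Bool) (p : E2) (h : valence (Tl d) p = 4) :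
    ∃ k m, p = V d k m ∧ (m + cc d k) % 2 = 0 := by
  obtain ⟨k, m, rfl⟩ := vertex_V d p (by unfold IsVertex; omega)
  refine ⟨k, m, rfl, ?_⟩
  rw [valence_V] at h
  by_contra hc
  rw [if_neg hc] at h
  omega

theorem three_V (d : ℕ → Bool) (p : E2) (h : valence (Tl d) p = 3) :
    ∃ k m, p = V d k m ∧ (m + cc d k) % 2 = 1 := by
  obtain ⟨k, m, rfl⟩ := vertex_V d p (by unfold IsVertex; omega)
  refine ⟨k, m, rfl, ?_⟩
  rw [valence_V] at h
  by_contra hc
  rw [if_pos (by omega)] at h
  omega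

/-- The index of the marked vertex of the tile `(k, i)`: it is `V d (k + 1) (mk d k i)`. -/
def mk (d : ℕ → Bool) (k i : ℤ) : ℤ :=
  if (i + cc d k) % 2 = 0 then 2 * i + 2 - cc d (k + 1) else 2 * i - cc d (k + 1)

theorem Mk_mk (d : ℕ → Bool) (k i : ℤ) : Mk (Tl d) (tile d k i) (V d (k + 1) (mk d k i)) := by
  have hc := cc_cases d (k + 1)
  have hc' := cc_cases d k
  refine ⟨tile_mem d k i, ?_, ?_, ?_⟩
  · rw [V_mem]
    right
    unfold mk
    split_ifs <;> omega
  · rw [valence_V, if_pos]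
    unfold mk
    split_ifs <;> omega
  · rintro t ⟨⟨k', i'⟩, rfl⟩ hne hq q' hq' hq't hqq h4
    obtain ⟨k2, m2, rfl, hm2⟩ := four_V d q' h4
    simp only at hne hq hq't
    rw [V_mem] at hq hq' hq't
    have hne' : ¬ (k' = k ∧ i' = i) := by
      rintro ⟨rfl, rfl⟩
      exact hne rfl
    have hqq' : ¬ (k2 = k + 1 ∧ m2 = mk d k i) := by
      rintro ⟨rfl, rfl⟩
      exact hqq rfl
    unfold mk at hq hqq'
    have e1 : k' = k → cc d k' = cc d k := fun e => by rw [e]
    have e2 : k2 = k → cc d k2 = cc d k := fun e => by rw [e]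
    have e3 : k2 = k + 1 → cc d k2 = cc d (k + 1) := fun e => by rw [e]
    have e4 : k + 1 - 1 = k := by ring
    by_cases hp : (i + cc d k) % 2 = 0
    · rw [if_pos hp] at hq hqq'
      rcases hq' with ⟨h1, h2, h3⟩ | ⟨h1, h2, h3⟩
      · subst h1
        omega
      · have h1' : k2 = k + 1 := by omega
        subst h1'
        omega
    · rw [if_neg hp] at hq hqq'
      rcases hq' with ⟨h1, h2, h3⟩ | ⟨h1, h2, h3⟩
      · subst h1
        omega
      · have h1' : k2 = k + 1 := by omega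
        subst h1'
        omega

theorem Mk_unique (d : ℕ → Bool) (k i : ℤ) (q : E2) (h : Mk (Tl d) (tile d k i) q) :
    q = V d (k + 1) (mk d k i) := by
  obtain ⟨_, hq, hv, hall⟩ := h
  obtain ⟨k2, m2, rfl, hm2⟩ := four_V d q hv
  have hc := cc_cases d (k + 1)
  have hc' := cc_cases d k
  rw [V_mem] at hq
  by_contra hne
  -- the candidates
  have hcand : (k2 = k + 1 ∧ m2 = 2 * i - cc d (k + 1)) ∨
      (k2 = k + 1 ∧ m2 = 2 * i + 2 - cc d (k + 1)) ∨
      (k2 = k ∧ (m2 = i ∨ m2 = i + 1)) := by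
    rcases hq with ⟨h1, h2, h3⟩ | ⟨h1, h2, h3⟩
    · subst h1
      omega
    · have h1' : k2 = k + 1 := by omega
      subst h1'
      omega
  have key : ∀ j : ℤ, j ≠ i → V d k2 m2 ∈ tile d k j →
      ∀ k3 m3, V d k3 m3 ∈ tile d k i → V d k3 m3 ∈ tile d k j →
        ¬ (k3 = k2 ∧ m3 = m2) → (m3 + cc d k3) % 2 = 0 → False := by
    intro j hj hq1 k3 m3 h1 h2 h3 h4
    have := hall (tile d k j) (tile_mem d k j)
      (fun e => hj ((tile_inj d _ _ _ _ e).2)) hq1 (V d k3 m3) h1 h2
      (fun e => h3 (by obtain ⟨a, b⟩ := V_inj d _ _ _ _ e; exact ⟨a, b⟩))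
    apply this
    rw [valence_V, if_pos h4]
  have e4 : k + 1 - 1 = k := by ring
  by_cases hp : (i + cc d k) % 2 = 0
  · have hmk : mk d k i = 2 * i + 2 - cc d (k + 1) := by unfold mk; rw [if_pos hp]
    rw [hmk] at hne
    rcases hcand with ⟨rfl, rfl⟩ | ⟨rfl, rfl⟩ | ⟨rfl, h⟩
    · -- TL, other point is BL in tile (k, i - 1)
      refine key (i - 1) (by omega) ?_ k i ?_ ?_ (by omega) hp
      · rw [V_mem]; omega
      · rw [V_mem]; omega
      · rw [V_mem]; omega
    · exact hne rfl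
    · have hm : m2 = i := by omega
      subst hm
      refine key (m2 - 1) (by omega) ?_ (k2 + 1) (2 * m2 - cc d (k2 + 1)) ?_ ?_ (by omega) (by omega)
      · rw [V_mem]; omega
      · rw [V_mem]; omega
      · rw [V_mem]; omega
  · have hmk : mk d k i = 2 * i - cc d (k + 1) := by unfold mk; rw [if_neg hp]
    rw [hmk] at hne
    rcases hcand with ⟨rfl, rfl⟩ | ⟨rfl, rfl⟩ | ⟨rfl, h⟩
    · exact hne rfl
    · refine key (i + 1) (by omega) ?_ k (i + 1) ?_ ?_ (by omega) (by omega)
      · rw [V_mem]; omega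
      · rw [V_mem]; omega
      · rw [V_mem]; omega
    · have hm : m2 = i + 1 := by omega
      subst hm
      refine key (i + 1) (by omega) ?_ (k2 + 1) (2 * i + 2 - cc d (k2 + 1)) ?_ ?_ (by omega)
        (by omega)
      · rw [V_mem]; omega
      · rw [V_mem]; omega
      · rw [V_mem]; omega

/-- The tile below the tile `(k, i)` is `(k - 1, par d k i)`. -/
def par (d : ℕ → Bool) (k i : ℤ) : ℤ := (i + cc d k) / 2

theorem Par_par (d : ℕ → Bool) (k i : ℤ) :
    Par (Tl d) (tile d k i) (tile d (k - 1) (par d k i)) := by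
  have hc := cc_cases d (k + 1)
  have hc' := cc_cases d k
  have e4 : k + 1 - 1 = k := by ring
  refine ⟨tile_mem _ _ _, tile_mem _ _ _, fun e => ?_, ?_⟩
  · have := (tile_inj d _ _ _ _ e).1
    omega
  · by_cases hp : (i + cc d k) % 2 = 0
    · refine ⟨tile d k (i + 1), tile_mem _ _ _, fun e => ?_, fun e => ?_, V d k (i + 1),
        ?_, ?_, ?_, ?_, V d (k + 1) (mk d k i), ?_, Mk_mk d k i, ?_⟩
      · have := (tile_inj d _ _ _ _ e).2
        omega
      · have := (tile_inj d _ _ _ _ e).1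
        omega
      · rw [V_mem]; omega
      · rw [V_mem]; omega
      · rw [V_mem]; unfold par; omega
      · rw [valence_V, if_neg (by omega)]
      · rw [V_mem]; unfold mk; rw [if_pos hp]; omega
      · have : mk d k i = mk d k (i + 1) := by
          unfold mk; rw [if_pos hp, if_neg (by omega)]; ring
        rw [this]
        exact Mk_mk d k (i + 1)
    · refine ⟨tile d k (i - 1), tile_mem _ _ _, fun e => ?_, fun e => ?_, V d k i,
        ?_, ?_, ?_, ?_, V d (k + 1) (mk d k i), ?_, Mk_mk d k i, ?_⟩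
      · have := (tile_inj d _ _ _ _ e).2
        omega
      · have := (tile_inj d _ _ _ _ e).1
        omega
      · rw [V_mem]; omega
      · rw [V_mem]; omega
      · rw [V_mem]; unfold par; omega
      · rw [valence_V, if_neg (by omega)]
      · rw [V_mem]; unfold mk; rw [if_neg hp]; omega
      · have : mk d k i = mk d k (i - 1) := by
          unfold mk; rw [if_neg hp, if_pos (by omega)]; ring
        rw [this]
        exact Mk_mk d k (i - 1)

theorem Par_unique (d : ℕ → Bool) (k i : ℤ) (u : Set E2) (h : Par (Tl d) (tile d k i) u) :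
    u = tile d (k - 1) (par d k i) := by
  have hc := cc_cases d (k + 1)
  have hc' := cc_cases d k
  have e4 : k + 1 - 1 = k := by ring
  obtain ⟨_, ⟨⟨ku, iu⟩, rfl⟩, hsu, t, ⟨⟨kt, it⟩, rfl⟩, hts, htu, p, hps, hpt, hpu, hv, q, hqt,
    hm1, hm2⟩ := h
  simp only at *
  have hq1 := Mk_unique d k i q hm1
  have hq2 := Mk_unique d kt it q hm2
  rw [hq1] at hq2
  obtain ⟨g1, g2⟩ := V_inj d _ _ _ _ hq2
  have hkt : kt = k := by omega
  subst hkt
  obtain ⟨k2, m2, rfl, hm⟩ := three_V d p hv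
  rw [V_mem] at hps hpt hpu
  have hts' : it ≠ i := fun e => hts (by rw [e])
  have hsu' : ¬ (ku = kt ∧ iu = i) := fun e => hsu (by rw [e.1, e.2])
  have htu' : ¬ (ku = kt ∧ iu = it) := fun e => htu (by rw [e.1, e.2])
  unfold mk at g2
  have hk2 : k2 = kt := by
    rcases hps with ⟨h1, h2, h3⟩ | ⟨h1, h2, h3⟩
    · exact h1.symm
    · exfalso
      have h1' : k2 = kt + 1 := by omega
      subst h1'
      split_ifs at g2 <;> omega
  subst hk2
  have : ku = k2 - 1 ∧ iu = par d k2 i := by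
    unfold par
    split_ifs at g2 <;> omega
  rw [this.1, this.2]

theorem Dif_par (d : ℕ → Bool) (k i : ℤ) :
    Dif (Tl d) (tile d k i) (tile d (k - 1) (par d k i)) ↔
      (i + cc d k) % 2 ≠ (par d k i + cc d (k - 1)) % 2 := by
  have hc' := cc_cases d k
  have e4 : k - 1 + 1 = k := by ring
  have h1 : Dif (Tl d) (tile d k i) (tile d (k - 1) (par d k i)) ↔
      V d (k - 1 + 1) (mk d (k - 1) (par d k i)) ∈ tile d k i := by
    constructor
    · rintro ⟨q, hq, hm⟩
      rwa [← Mk_unique d _ _ q hm]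
    · intro h
      exact ⟨_, h, Mk_mk d _ _⟩
  rw [h1, e4, V_mem]
  unfold mk
  rw [e4]
  unfold par
  split_ifs with h <;> omega

/-- The bit sequence of a tile of a binary tiling is unique. -/
theorem Bits_unique (d : ℕ → Bool) (t : Set E2) (ht : t ∈ Tl d) (b b' : ℕ → Bool)
    (h : Bits (Tl d) t b) (h' : Bits (Tl d) t b') : b = b' := by
  obtain ⟨f, hf0, hf1, hf2⟩ := h
  obtain ⟨g, hg0, hg1, hg2⟩ := h'
  have hfg : ∀ n, f n = g n ∧ ∃ k i, f n = tile d k i := by
    intro n
    induction n with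
    | zero =>
      obtain ⟨⟨k, i⟩, rfl⟩ := ht
      exact ⟨by rw [hf0, hg0], k, i, hf0⟩
    | succ n ih =>
      obtain ⟨e, k, i, hk⟩ := ih
      have h1 := hf1 n
      have h2 := hg1 n
      rw [← e] at h2
      rw [hk] at h1 h2
      have h3 := Par_unique d k i _ h1
      have h4 := Par_unique d k i _ h2
      exact ⟨by rw [h3, h4], k - 1, par d k i, h3⟩
  funext n
  have h1 := hf2 n
  have h2 := hg2 n
  rw [← (hfg n).1, ← (hfg (n + 1)).1] at h2
  rw [Bool.eq_iff_iff, h1, h2]

/-- The prefix sums of a bit sequence. -/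
def pre (b : ℕ → Bool) : ℕ → Bool
  | 0 => false
  | n + 1 => xor (pre b n) (b n)

theorem Bits_pre (b : ℕ → Bool) : Bits (Tl (pre b)) (tile (pre b) 0 0) b := by
  refine ⟨fun n => tile (pre b) (-(n : ℤ)) 0, by simp, fun n => ?_, fun n => ?_⟩
  · have h := Par_par (pre b) (-(n : ℤ)) 0
    have h2 : par (pre b) (-(n : ℤ)) 0 = 0 := by
      unfold par
      have := cc_cases (pre b) (-(n : ℤ))
      omega
    rw [h2] at h
    have h3 : -((n + 1 : ℕ) : ℤ) = -(n : ℤ) - 1 := by push_cast; ring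
    simp only [h3]
    exact h
  · have h := Dif_par (pre b) (-(n : ℤ)) 0
    have h2 : par (pre b) (-(n : ℤ)) 0 = 0 := by
      unfold par
      have := cc_cases (pre b) (-(n : ℤ))
      omega
    rw [h2] at h
    have h3 : -((n + 1 : ℕ) : ℤ) = -(n : ℤ) - 1 := by push_cast; ring
    simp only [h3]
    rw [h, ← h3]
    have e1 : (- -(n : ℤ)).toNat = n := by omega
    have e2 : (- -((n + 1 : ℕ) : ℤ)).toNat = n + 1 := by omega
    have c1 : cc (pre b) (-(n : ℤ)) = if pre b n then 1 else 0 := by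
      have h5 : -(n : ℤ) ≤ 0 := by omega
      unfold cc
      rw [if_pos h5, e1]
    have c2 : cc (pre b) (-((n + 1 : ℕ) : ℤ)) = if xor (pre b n) (b n) then 1 else 0 := by
      have h5 : -((n + 1 : ℕ) : ℤ) ≤ 0 := by omega
      unfold cc
      rw [if_pos h5, e2, pre]
    rw [c1, c2]
    cases pre b n <;> cases b n <;> simp

/-- For a given binary tiling only countably many bit sequences occur. -/
theorem countable_bits (d : ℕ → Bool) : {b : ℕ → Bool | ∃ t ∈ Tl d, Bits (Tl d) t b}.Countable := by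
  have : {b : ℕ → Bool | ∃ t ∈ Tl d, Bits (Tl d) t b} ⊆
      ⋃ a : ℤ × ℤ, {b : ℕ → Bool | Bits (Tl d) (tile d a.1 a.2) b} := by
    rintro b ⟨t, ⟨a, rfl⟩, hb⟩
    exact Set.mem_iUnion.2 ⟨a, hb⟩
  refine Set.Countable.mono this (Set.countable_iUnion fun a => Set.Subsingleton.countable ?_)
  intro b hb b' hb'
  exact Bits_unique d _ (tile_mem d _ _) b b' hb hb'

theorem TopEquiv_refl (T : Set (Set E2)) : TopEquiv T T := by
  refine ⟨Homeomorph.refl E2, ?_⟩
  ext t
  simp

theorem TopEquiv_symm {T T' : Set (Set E2)} (h : TopEquiv T T') : TopEquiv T' T := by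
  obtain ⟨φ, rfl⟩ := h
  refine ⟨φ.symm, ?_⟩
  rw [Set.image_image]
  ext t
  simp [Set.image_image]

theorem TopEquiv_trans {T T' T'' : Set (Set E2)} (h : TopEquiv T T') (h' : TopEquiv T' T'') :
    TopEquiv T T'' := by
  obtain ⟨φ, rfl⟩ := h
  obtain ⟨ψ, rfl⟩ := h'
  refine ⟨φ.trans ψ, ?_⟩
  rw [Set.image_image]
  apply Set.image_congr
  intro t _
  rw [Set.image_image]
  rfl

/-- For a given `b` only countably many `b'` give equivalent tilings. -/
theorem countable_class (b : ℕ → Bool) :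
    {b' : ℕ → Bool | TopEquiv (Tl (pre b')) (Tl (pre b))}.Countable := by
  refine Set.Countable.mono ?_ (countable_bits (pre b))
  rintro b' ⟨φ, hφ⟩
  refine ⟨φ '' tile (pre b') 0 0, ?_, ?_⟩
  · rw [← hφ]
    exact ⟨_, tile_mem _ _ _, rfl⟩
  · exact Bits_image φ.toEquiv hφ _ _ (Bits_pre b')

theorem uncountable_family (P : Set (Set E2) → Prop) (hP : ∀ b : ℕ → Bool, P (Tl (pre b))) :
    ∃ S : Set (Set (Set E2)), ¬ S.Countable ∧ (∀ T ∈ S, P T) ∧
      ∀ T ∈ S, ∀ T' ∈ S, T ≠ T' → ¬ TopEquiv T T' := by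
  let st : Setoid (ℕ → Bool) :=
    { r := fun b b' => TopEquiv (Tl (pre b)) (Tl (pre b'))
      iseqv := ⟨fun _ => TopEquiv_refl _, fun h => TopEquiv_symm h,
        fun h h' => TopEquiv_trans h h'⟩ }
  let F : Quotient st → Set (Set E2) := fun q => Tl (pre q.out)
  have hF : ∀ q q' : Quotient st, TopEquiv (F q) (F q') → q = q' := by
    intro q q' h
    have : st.r q.out q'.out := h
    rw [← Quotient.out_eq q, ← Quotient.out_eq q']
    exact Quotient.sound this
  refine ⟨Set.range F, ?_, ?_, ?_⟩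
  · intro hc
    have hinj : Function.Injective F := by
      intro q q' h
      apply hF
      rw [h]
      exact TopEquiv_refl _
    have hQ : Countable (Quotient st) := by
      have : Countable (Set.range F) := hc.to_subtype
      exact Function.Injective.countable (Set.rangeFactorization_injective.2 hinj)
    have hcov : (Set.univ : Set (ℕ → Bool)) ⊆
        ⋃ q : Quotient st, {b' : ℕ → Bool | TopEquiv (Tl (pre b')) (Tl (pre q.out))} := by
      intro b _
      refine Set.mem_iUnion.2 ⟨Quotient.mk st b, ?_⟩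
      exact TopEquiv_symm (Quotient.mk_out b)
    have h1 : (Set.univ : Set (ℕ → Bool)).Countable :=
      Set.Countable.mono hcov (Set.countable_iUnion fun q => countable_class _)
    have h2 : Countable (ℕ → Bool) := Set.countable_univ_iff.1 h1
    obtain ⟨f, hf⟩ := exists_surjective_nat (ℕ → Bool)
    obtain ⟨m, hm⟩ := hf (fun n => !(f n n))
    have h3 := congrFun hm m
    simp at h3
  · rintro _ ⟨q, rfl⟩
    exact hP _
  · rintro _ ⟨q, rfl⟩ _ ⟨q', rfl⟩ hne h
    exact hne (by rw [hF q q' h])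

end Pool.Agent.Q139.Bin
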