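import Pool.Agent.Q139.Bin.Inv

/-! The binary tilings are tilings. -/

open Topology Set

namespace Pool.Agent.Q139.Bin

theorem interior_strip (a b : ℝ) (i : Fin 2) :
    interior {p : E2 | p i ∈ Icc a b} = {p : E2 | p i ∈ Ioo a b} := by
  let f : E2 → ℝ := fun x ↦ x i
  change interior (f ⁻¹' Icc a b) = f ⁻¹' Ioo a b
  rw [← (PiLp.isOpenMap_apply 2 _ i).preimage_interior_eq_interior_preimage, interior_Icc]
  fun_prop

theorem tile_eq (d : ℕ → Bool) (k i : ℤ) : tile d k i =
    {p : E2 | p 0 ∈ Icc (X d k i) (X d k (i + 1))} ∩ {p : E2 | p 1 ∈ Icc (k : ℝ) (k + 1)} := by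
  ext p
  simp only [mem_tile, mem_inter_iff, mem_ofPred_eq, mem_Icc]
  tauto

theorem interior_tile (d : ℕ → Bool) (k i : ℤ) : interior (tile d k i) =
    {p : E2 | X d k i < p 0 ∧ p 0 < X d k (i + 1) ∧ (k : ℝ) < p 1 ∧ p 1 < (k : ℝ) + 1} := by
  rw [tile_eq, interior_inter, interior_strip, interior_strip]
  ext p
  simp only [mem_inter_iff, mem_ofPred_eq, mem_Ioo]
  tauto

theorem closed_tile (d : ℕ → Bool) (k i : ℤ) : IsClosed (tile d k i) := by
  rw [tile_eq]
  apply IsClosed.inter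
  · exact isClosed_Icc.preimage (by fun_prop : Continuous fun p : E2 => p 0)
  · exact isClosed_Icc.preimage (by fun_prop : Continuous fun p : E2 => p 1)

theorem convex_tile (d : ℕ → Bool) (k i : ℤ) : Convex ℝ (tile d k i) := by
  intro p hp q hq a b ha hb hab
  rw [mem_tile] at *
  have e0 : (a • p + b • q) 0 = a * p 0 + b * q 0 := rfl
  have e1 : (a • p + b • q) 1 = a * p 1 + b * q 1 := rfl
  rw [e0, e1]
  obtain ⟨h1, h2, h3, h4⟩ := hp
  obtain ⟨g1, g2, g3, g4⟩ := hq
  have hb' : b = 1 - a := by linarith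
  subst hb'
  refine ⟨?_, ?_, ?_, ?_⟩ <;> nlinarith

theorem bounded_tile (d : ℕ → Bool) (k i : ℤ) : Bornology.IsBounded (tile d k i) := by
  rw [Metric.isBounded_iff_subset_closedBall (0 : E2)]
  refine ⟨(|X d k i| + |X d k (i + 1)|) + (|(k : ℝ)| + 1), ?_⟩
  intro p hp
  rw [mem_tile] at hp
  rw [mem_closedBall_zero_iff, EuclideanSpace.norm_eq]
  have h0 : |p 0| ≤ |X d k i| + |X d k (i + 1)| := by
    rw [abs_le]
    constructor
    · have := neg_abs_le (X d k i)
      have := abs_nonneg (X d k (i + 1))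
      linarith
    · have := le_abs_self (X d k (i + 1))
      have := abs_nonneg (X d k i)
      linarith
  have h1 : |p 1| ≤ |(k : ℝ)| + 1 := by
    rw [abs_le]
    constructor
    · have := neg_abs_le (k : ℝ)
      linarith
    · have := le_abs_self (k : ℝ)
      linarith
  rw [Real.sqrt_le_left (by positivity)]
  rw [Fin.sum_univ_two]
  simp only [Real.norm_eq_abs]
  have := abs_nonneg (p 0)
  have := abs_nonneg (p 1)
  nlinarith

theorem nonempty_interior (d : ℕ → Bool) (k i : ℤ) : (interior (tile d k i)).Nonempty := by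
  rw [interior_tile]
  have h := (X_lt d k i (i + 1)).2 (by omega)
  refine ⟨!₂[(X d k i + X d k (i + 1)) / 2, (k : ℝ) + 1 / 2], ?_⟩
  show X d k i < (X d k i + X d k (i + 1)) / 2 ∧ (X d k i + X d k (i + 1)) / 2 < X d k (i + 1) ∧
    (k : ℝ) < (k : ℝ) + 1 / 2 ∧ (k : ℝ) + 1 / 2 < (k : ℝ) + 1
  refine ⟨?_, ?_, ?_, ?_⟩ <;> linarith

theorem disk_tile (d : ℕ → Bool) (k i : ℤ) :
    Nonempty (tile d k i ≃ₜ Metric.closedBall (0 : E2) 1) := by
  obtain ⟨h, _, h2, _⟩ := exists_homeomorph_image_interior_closure_frontier_eq_unitBall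
    (convex_tile d k i) (nonempty_interior d k i) (bounded_tile d k i)
  rw [(closed_tile d k i).closure_eq] at h2
  exact ⟨(h.image (tile d k i)).trans (Homeomorph.setCongr h2)⟩

theorem isTiling_Tl (d : ℕ → Bool) : IsTiling (Tl d) where
  countable := countable_range _
  closed := by
    rintro _ ⟨a, rfl⟩
    exact closed_tile _ _ _
  cover := by
    intro p
    obtain ⟨i, h1, h2⟩ := exists_idx d ⌊p 1⌋ (p 0)
    exact ⟨tile d ⌊p 1⌋ i, tile_mem _ _ _, h1, h2.le, Int.floor_le _,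
      (Int.lt_floor_add_one _).le⟩
  disjoint := by
    rintro _ ⟨⟨k, i⟩, rfl⟩ _ ⟨⟨k', i'⟩, rfl⟩ hne
    simp only at *
    rw [Set.disjoint_left]
    intro p hp hp'
    rw [interior_tile] at hp hp'
    obtain ⟨h1, h2, h3, h4⟩ := hp
    obtain ⟨g1, g2, g3, g4⟩ := hp'
    have e1 : k < k' + 1 := by
      have : (k : ℝ) < ((k' + 1 : ℤ) : ℝ) := by push_cast; linarith
      exact Int.cast_lt.1 this
    have e2 : k' < k + 1 := by
      have : (k' : ℝ) < ((k + 1 : ℤ) : ℝ) := by push_cast; linarith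
      exact Int.cast_lt.1 this
    have e3 : k = k' := by omega
    subst e3
    have e4 := (X_lt d k _ _).1 (lt_trans h1 g2)
    have e5 := (X_lt d k _ _).1 (lt_trans g1 h2)
    have e6 : i = i' := by omega
    subst e6
    exact hne rfl
  disk := by
    rintro _ ⟨a, rfl⟩
    exact disk_tile _ _ _
  inter := by
    rintro _ ⟨a, rfl⟩ _ ⟨b, rfl⟩ _
    rcases (tile d a.1 a.2 ∩ tile d b.1 b.2).eq_empty_or_nonempty with h | h
    · left; exact h
    · right
      exact ((convex_tile _ _ _).inter (convex_tile _ _ _)).isConnected h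
  nonsingular := by
    intro p
    refine ⟨{q : E2 | q 0 ∈ Ioo (p 0 - 1) (p 0 + 1)} ∩ {q : E2 | q 1 ∈ Ioo (p 1 - 1) (p 1 + 1)},
      ?_, ?_⟩
    · apply IsOpen.mem_nhds
      · apply IsOpen.inter
        · exact isOpen_Ioo.preimage (by fun_prop : Continuous fun p : E2 => p 0)
        · exact isOpen_Ioo.preimage (by fun_prop : Continuous fun p : E2 => p 1)
      · simp
    · choose lo hlo using fun k : ℤ => exists_idx d k (p 0 - 1)
      choose hi hhi using fun k : ℤ => exists_idx d k (p 0 + 1)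
      have hfin : (⋃ k ∈ Icc (⌊p 1⌋ - 2) (⌊p 1⌋ + 2),
          (fun i => tile d k i) '' Icc (lo k) (hi k)).Finite := by
        apply Set.Finite.biUnion (Set.finite_Icc _ _)
        intro k _
        exact (Set.finite_Icc _ _).image _
      apply hfin.subset
      rintro _ ⟨⟨⟨k, i⟩, rfl⟩, q, hq, hq0, hq1⟩
      simp only [mem_ofPred_eq, mem_Ioo, mem_tile] at hq hq0 hq1
      obtain ⟨g1, g2, g3, g4⟩ := hq
      have f1 := Int.floor_le (p 1)
      have f2 := Int.lt_floor_add_one (p 1)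
      rw [mem_iUnion₂]
      refine ⟨k, ⟨?_, ?_⟩, i, ⟨?_, ?_⟩, rfl⟩
      · have : ((⌊p 1⌋ - 2 : ℤ) : ℝ) ≤ k := by push_cast; linarith
        exact Int.cast_le.1 this
      · have : (k : ℝ) ≤ ((⌊p 1⌋ + 2 : ℤ) : ℝ) := by push_cast; linarith
        exact Int.cast_le.1 this
      · have := (X_lt d k _ _).1 (lt_of_le_of_lt (hlo k).1 (lt_of_lt_of_le hq0.1 g2))
        omega
      · have := (X_lt d k _ _).1 (lt_of_le_of_lt g1 (lt_trans hq0.2 (hhi k).2))
        omega

end Pool.Agent.Q139.Bin
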